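import Pool.Agent.H176.DT.Stm6

/-! # The toric step (project DT) -/

set_option autoImplicit false
set_option linter.unusedVariables false
set_option linter.unusedSectionVars false

universe u

namespace Pool.Agent.H297.DT6

open Pool.Agent.W418.LU2 Pool.Agent.H176.DT IsLocalRing

/-- The toric step. -/
theorem tor6 : S6_tor.{u} := by
  classical
  intro E F _ _ _ V C hC hCE s x hreg hxu m A hm0 hmV hmi hxm hA hgen halg
  have hm1 : ∀ j, V.valuation (m j) < 1 := fun j =>
    (val_lt_one_iff V (m j)).2 ⟨hmV j, fun h => hmi j h.2⟩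
  have hSA : Subring.closure ((C.map (emb E (Fin s)) : Set (FF E (Fin s))) ∪
      Set.range (Zc E)) ≤ AT E m V := by
    rw [Subring.closure_le]
    rintro z (⟨e, he, rfl⟩ | ⟨θ, rfl⟩)
    · exact (emb_mem V e).2 (hC he)
    · exact (Pr_Z (E := E) m θ).mem_AA.2 (hmV θ)
  have hPA : RZ C m V ≤ AT E m V := lo_le hSA
  have hZm : ∀ θ : Fin s, Zc E θ ∈ RZ C m V := fun θ =>
    le_lo _ _ (Subring.subset_closure (Or.inr ⟨θ, rfl⟩))
  -- the base
  obtain ⟨n, z, hz⟩ := p_ext hreg hxu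
  have hz' := p_map (emb E (Fin s)) (fun a => emb_mem (y := m) V a) hz
  have hzm : ∀ k, z k ∈ lo (V.comap (algebraMap E F)).toSubring C := fun k => hz.mem (Sum.inr k)
  have hxmem : ∀ i, x i ∈ lo (V.comap (algebraMap E F)).toSubring C := fun i => hreg.mem i
  have hzP : ∀ k, emb E (Fin s) (z k) ∈ RZ C m V := fun k => emb_mem_lo (hzm k) _
  have hxP : ∀ i, emb E (Fin s) (x i) ∈ RZ C m V := fun i => emb_mem_lo (hxmem i) _
  let Y' : Fin s → RZ C m V := fun j => ⟨Zc E j, hZm j⟩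
  let z' : Fin n → RZ C m V := fun k => ⟨emb E (Fin s) (z k), hzP k⟩
  have heP : ∀ i, emb E (Fin s) (x i) - ∏ j, Zc E j ^ A i j ∈ RZ C m V := fun i =>
    Subring.sub_mem _ (hxP i) (Subring.prod_mem _ fun j _ => Subring.pow_mem _ (hZm j) _)
  let e : Fin s → RZ C m V := fun i => ⟨_, heP i⟩
  have he0 : ∀ i, Pr (ph (E := E) m) (e i : FF E (Fin s)) 0 := by
    intro i
    have h1 := (Pr_emb (E := E) m (x i)).add (Pr.prod Finset.univ (z := fun j => Zc E j ^ A i j)
      (w := fun j => m j ^ A i j) fun j _ => (Pr_Z (E := E) m j).pow (A i j)).neg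
    rw [← hxm i, add_neg_cancel, ← sub_eq_add_neg] at h1
    exact h1
  let J : Ideal (RZ C m V) := Ideal.span (Set.range (Sum.elim (Sum.elim Y' z') e))
  have hJZ : ∀ j : Fin s, InJ J (Zc E j) := fun j =>
    ⟨hZm j, Ideal.subset_span ⟨Sum.inl (Sum.inl j), rfl⟩⟩
  have hJe : ∀ θ, InJ J (e θ : FF E (Fin s)) := fun θ =>
    ⟨(e θ).2, Ideal.subset_span ⟨Sum.inr θ, rfl⟩⟩
  have hJz : ∀ k, InJ J (emb E (Fin s) (z k)) := fun k =>
    ⟨hzP k, Ideal.subset_span ⟨Sum.inl (Sum.inr k), rfl⟩⟩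
  have hJprod : ∀ i, InJ J (∏ j, Zc E j ^ A i j : FF E (Fin s)) := by
    intro i
    obtain ⟨j, hj⟩ := hA i
    obtain ⟨k, hk⟩ := Nat.exists_eq_succ_of_ne_zero hj
    have h1 : (∏ j, Zc E j ^ A i j : FF E (Fin s)) =
        ((∏ l ∈ Finset.univ.erase j, Zc E l ^ A i l) * Zc E j ^ k) * Zc E j := by
      rw [← Finset.mul_prod_erase _ _ (Finset.mem_univ j), hk, pow_succ]
      ring
    rw [h1]
    exact InJ.mul (Subring.mul_mem _ (Subring.prod_mem _ fun l _ => Subring.pow_mem _ (hZm l) _)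
      (Subring.pow_mem _ (hZm j) _)) (hJZ j)
  have hJx : ∀ i, InJ J (emb E (Fin s) (x i)) := by
    intro i
    have h1 := (hJe i).add (hJprod i)
    change InJ J (emb E (Fin s) (x i) - ∏ j, Zc E j ^ A i j + ∏ j, Zc E j ^ A i j) at h1
    rwa [sub_add_cancel] at h1
  -- adjoining the variables
  have hchain := chain p_adj p_alg m V hmV C hC s (Equiv.refl (Fin s)) {v | InJ J v}
    (Fintype.card (Fin s ⊕ Fin n)) ⟨Fin s ⊕ Fin n, inferInstance, _, hz', rfl, by
      rintro (i | k)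
      · exact hJx i
      · exact hJz k⟩ (by
    intro j
    obtain ⟨a, haa⟩ : ∃ a : lo (AT E m V) (Subring.closure
        ((C.map (emb E (Fin s)) : Set (FF E (Fin s))) ∪ Zc E '' {l | (Equiv.refl (Fin s)) l <
          (Equiv.refl (Fin s)) j})), (a : FF E (Fin s)) = 0 := ⟨0, rfl⟩
    obtain ⟨g, hg1, hg2, hg3⟩ := lin_poly (AT E m V) a (Zc E j)
    rw [haa] at hg2
    refine ⟨g, hg1, ?_, ?_, hg3⟩
    · rw [hg2, sub_zero]
      exact NU_of_val (Pr_Z (E := E) m j) (hm1 j)
    · rw [hg2, sub_zero]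
      exact hJZ j)
  obtain ⟨ι, _, ζ, hζ, hcard, hζJ⟩ := hchain
  have hPreg : IsRegularLocalRing (RZ C m V) := hζ.reg
  -- the ideal
  have hmax : Ideal.span (Set.range (Sum.elim (Sum.elim Y' z') e)) =
      maximalIdeal (RZ C m V) := by
    apply le_antisymm
    · rw [Ideal.span_le]
      rintro _ ⟨(j | k) | θ, rfl⟩
      · rw [SetLike.mem_coe, hζ.mem_max]
        exact NU_of_val (Pr_Z (E := E) m j) (hm1 j)
      · rw [SetLike.mem_coe, hζ.mem_max]
        refine NU_of_val (Pr_emb (E := E) m (z k)) ?_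
        rw [val_lt_one_iff]
        refine ⟨lo_le hC (hzm k), ?_⟩
        rintro ⟨h1, h2⟩
        refine hz.nu (Sum.inr k) ⟨fun h3 => h1 ?_, ?_⟩
        · have h4 : z k = 0 := h3
          rw [h4, map_zero]
        · change algebraMap E F (z k)⁻¹ ∈ V
          rw [map_inv₀]
          exact h2
      · rw [SetLike.mem_coe, hζ.mem_max]
        refine NU_of_val (he0 θ) ?_
        rw [map_zero]
        exact zero_lt_one
    · rw [← hζ.span, Ideal.span_le]
      rintro _ ⟨i, rfl⟩
      exact (hζJ i).2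
  have hInd : Ind (Sum.elim (Sum.elim Y' z') e) := by
    refine ind_of_span hmax ?_
    rw [hζ.dim, hcard]
    simp only [Fintype.card_sum, Fintype.card_fin]
    exact le_rfl
  -- cutting
  have hz0 : ∀ k, algebraMap E F (z k) ≠ 0 := by
    intro k h0
    have h1 := hInd.ne_zero (Sum.inl (Sum.inr k))
    apply h1
    apply Subtype.ext
    change emb E (Fin s) (z k) = 0
    rw [(map_eq_zero _).1 h0, map_zero]
  have h1 := p_cut m V C hC hCE hmV (Sum.elim Y' z') e hInd he0
    (Sum.elim m fun k => algebraMap E F (z k)) (by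
      rintro (j | k)
      · exact Pr_Z (E := E) m j
      · exact Pr_emb (E := E) m (z k)) (by
      rintro (j | k)
      · exact hm0 j
      · exact hz0 k) (fun w => hfr_of (L := ⊤) (y := m) rfl (fun a => trivial)
        (fun w _ => hgen w) w) (by
      rw [trdeg_eq_zero, zero_add])
  exact RegP_comp h1 Sum.inl Sum.inl_injective

end Pool.Agent.H297.DT6
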